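import Pool.Agent.TH120.PM.One

/-!
# Relations with `π`
-/

set_option autoImplicit false

open MvPolynomial Pool.Agent.TH133.MZ

namespace Pool.Agent.TH120.PM

noncomputable section

/-- evaluation at `π` and the real multiple zeta values -/
def evR : Polynomial (MvPolynomial Adm ℚ) →+* ℝ :=
  Polynomial.eval₂RingHom (aeval zetaReal : MvPolynomial Adm ℚ →ₐ[ℚ] ℝ).toRingHom Real.pi

lemma evR_C (c : MvPolynomial Adm ℚ) : evR (Polynomial.C c) = aeval zetaReal c := by
  unfold evR
  rw [Polynomial.coe_eval₂RingHom, Polynomial.eval₂_C]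
  rfl

lemma evR_X : evR Polynomial.X = Real.pi := by
  unfold evR
  rw [Polynomial.coe_eval₂RingHom, Polynomial.eval₂_X]

lemma zeta2_eq : aeval zetaReal (X (single 2 le_rfl) : MvPolynomial Adm ℚ) = Real.pi ^ 2 / 6 := by
  rw [aeval_X, zetaReal_single, zeta_two]

lemma split {p : ℕ} [Fact p.Prime] (z : Adm → ℚ_[p]) (h2 : z (single 2 le_rfl) = 0)
    (P : Polynomial (MvPolynomial Adm ℚ)) : ∃ a b : MvPolynomial Adm ℚ,
      evR P = aeval zetaReal a + Real.pi * aeval zetaReal b ∧ aeval z (P.coeff 0) = aeval z a := by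
  induction P using Polynomial.induction_on' with
  | add P Q hP hQ =>
    obtain ⟨a, b, h1, h3⟩ := hP
    obtain ⟨a', b', h1', h3'⟩ := hQ
    refine ⟨a + a', b + b', ?_, ?_⟩
    · rw [map_add, h1, h1', map_add, map_add]
      ring
    · rw [Polynomial.coeff_add, map_add, map_add, h3, h3']
  | monomial n c =>
    induction n with
    | zero =>
      refine ⟨c, 0, ?_, ?_⟩
      · rw [Polynomial.monomial_zero_left, evR_C, map_zero, mul_zero, add_zero]
      · rw [Polynomial.monomial_zero_left, Polynomial.coeff_C_zero]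
    | succ n ih =>
      obtain ⟨a, b, h1, h3⟩ := ih
      refine ⟨C 6 * X (single 2 le_rfl) * b, a, ?_, ?_⟩
      · rw [← Polynomial.X_mul_monomial, map_mul, evR_X, h1, map_mul, map_mul, zeta2_eq, aeval_C]
        have e : (algebraMap ℚ ℝ) 6 = 6 := by simp
        rw [e]
        ring
      · rw [Polynomial.coeff_monomial, if_neg (by omega), map_zero, map_mul, map_mul, aeval_X, h2, mul_zero,
          zero_mul]

/-- **`π ↦ 0` is compatible with the relations** -/
theorem pi_zero {p : ℕ} [Fact p.Prime] (z : Adm → ℚ_[p]) (h2 : z (single 2 le_rfl) = 0) (ht : Transfers z)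
    (P : Polynomial (MvPolynomial Adm ℚ)) (hP : evR P = 0) : aeval z (P.coeff 0) = 0 := by
  obtain ⟨a, b, h1, h3⟩ := split z h2 P
  rw [h3]
  rw [hP] at h1
  have h4 : aeval zetaReal (a ^ 2 - C 6 * X (single 2 le_rfl) * b ^ 2) = 0 := by
    rw [map_sub, map_mul, map_mul, map_pow, map_pow, zeta2_eq, aeval_C]
    have e : (algebraMap ℚ ℝ) 6 = 6 := by simp
    have h5 : aeval zetaReal a = -(Real.pi * aeval zetaReal b) := by linarith
    rw [e, h5]
    ring
  have h5 := ht _ h4
  rw [map_sub, map_mul, map_mul, map_pow, map_pow, aeval_X, h2, mul_zero, zero_mul, sub_zero] at h5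
  exact pow_eq_zero_iff (by norm_num) |>.1 h5

/-- `1 / π` is not in `Z[π]` -/
theorem pi_unit {p : ℕ} [Fact p.Prime] (z : Adm → ℚ_[p]) (h2 : z (single 2 le_rfl) = 0) (ht : Transfers z)
    (P : Polynomial (MvPolynomial Adm ℚ)) : Real.pi * evR P ≠ 1 := by
  intro h
  have h1 : evR (Polynomial.X * P - 1) = 0 := by
    rw [map_sub, map_mul, evR_X, map_one, h, sub_self]
  have h3 := pi_zero z h2 ht _ h1
  rw [Polynomial.coeff_sub, Polynomial.mul_coeff_zero, Polynomial.coeff_X_zero, zero_mul,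
    Polynomial.coeff_one_zero, zero_sub, map_neg, map_one] at h3
  norm_num at h3

/-- **a polynomial with `g(0, Y) ≠ 0`** -/
lemma reduce (g : Polynomial (Polynomial ℚ)) (hg : g ≠ 0) (x : ℝ)
    (h : (g.map (Polynomial.aeval (Real.pi)).toRingHom).eval x = 0) :
    ∃ g' : Polynomial (Polynomial ℚ), g'.natDegree ≤ g.natDegree ∧
      g'.map (Polynomial.constantCoeff : Polynomial ℚ →+* ℚ) ≠ 0 ∧
      (g'.map (Polynomial.aeval (Real.pi)).toRingHom).eval x = 0 := by
  have hu : ¬ IsUnit (Polynomial.C (Polynomial.X : Polynomial ℚ)) := by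
    rw [Polynomial.isUnit_C]
    exact Polynomial.not_isUnit_X
  obtain ⟨c, hc, hnd⟩ := (FiniteMultiplicity.of_not_isUnit hu hg).exists_eq_pow_mul_and_not_dvd
  have hc0 : c ≠ 0 := by
    rintro rfl
    exact hnd (dvd_zero _)
  refine ⟨c, ?_, ?_, ?_⟩
  · rw [hc, Polynomial.natDegree_mul (pow_ne_zero _ (by
      rw [Ne, Polynomial.C_eq_zero]; exact Polynomial.X_ne_zero)) hc0]
    omega
  · intro h0
    apply hnd
    rw [Polynomial.C_dvd_iff_dvd_coeff]
    intro i
    rw [Polynomial.X_dvd_iff]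
    have := congrArg (fun q => Polynomial.coeff q i) h0
    simpa using this
  · rw [hc, Polynomial.map_mul, Polynomial.map_pow, Polynomial.map_C, Polynomial.eval_mul, Polynomial.eval_pow,
      Polynomial.eval_C] at h
    rcases mul_eq_zero.1 h with h1 | h1
    · exfalso
      have h3 : Real.pi = 0 := by
        have := eq_zero_of_pow_eq_zero h1
        simpa using this
      exact Real.pi_ne_zero h3
    · exact h1

/-- **degrees** -/
theorem degree_le (f : MvPolynomial Adm ℚ) (g : Polynomial (Polynomial ℚ)) (hg : g ≠ 0)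
    (h : (g.map (Polynomial.aeval (Real.pi)).toRingHom).eval (aeval zetaReal f) = 0) :
    ∃ q : Polynomial ℚ, q ≠ 0 ∧ q.natDegree ≤ g.natDegree ∧ ∀ (p : ℕ) [Fact p.Prime] (z : Adm → ℚ_[p]),
      z (single 2 le_rfl) = 0 → Transfers z → Polynomial.aeval (aeval z f) q = 0 := by
  obtain ⟨g', h1, h2, h3⟩ := reduce g hg _ h
  refine ⟨g'.map Polynomial.constantCoeff, h2, (Polynomial.natDegree_map_le).trans h1, fun p _ z hz ht => ?_⟩
  set P : Polynomial (MvPolynomial Adm ℚ) :=
    g'.eval₂ (Polynomial.mapRingHom (C : ℚ →+* MvPolynomial Adm ℚ)) (Polynomial.C f) with hP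
  have e1 : evR P = 0 := by
    rw [hP, Polynomial.hom_eval₂, evR_C, ← h3, Polynomial.eval_map]
    congr 1
    ext q
    · simp [evR]
    · simp [evR]
  have e2 : P.coeff 0 = Polynomial.aeval f (g'.map Polynomial.constantCoeff) := by
    have e3 : P.coeff 0 = Polynomial.constantCoeff P := rfl
    rw [e3, hP, Polynomial.hom_eval₂, Polynomial.aeval_def, Polynomial.eval₂_map]
    congr 1
    · ext q
      · simp
      · simp
    · simp
  have e4 := pi_zero z hz ht P e1
  rw [e2, ← Polynomial.aeval_algHom_apply] at e4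
  exact e4

/-- values algebraic over `ℚ(π)` -/
theorem vanish {zp : ∀ (p : ℕ) [Fact p.Prime], Adm → ℚ_[p]} (hint : Divisible zp)
    (h2 : ∀ (p : ℕ) [Fact p.Prime], zp p (single 2 le_rfl) = 0) (f : MvPolynomial Adm ℚ)
    (hf : constantCoeff f = 0) (g : Polynomial (Polynomial ℚ)) (hg : g ≠ 0)
    (h : (g.map (Polynomial.aeval (Real.pi)).toRingHom).eval (aeval zetaReal f) = 0) :
    ∃ N : ℕ, ∀ (p : ℕ) [Fact p.Prime], N ≤ p → Transfers (zp p) → aeval (zp p) f = 0 := by
  obtain ⟨q, hq, -, hq2⟩ := degree_le f g hg h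
  obtain ⟨r, hr, hnd⟩ := (FiniteMultiplicity.of_not_isUnit Polynomial.not_isUnit_X hq).exists_eq_pow_mul_and_not_dvd
  have hr0 : r.coeff 0 ≠ 0 := fun h0 => hnd (Polynomial.X_dvd_iff.2 h0)
  set G : MvPolynomial Adm ℚ := Polynomial.aeval f r - C (r.coeff 0) with hG
  have hG0 : constantCoeff G = 0 := by
    have e := Polynomial.aeval_algHom_apply (MvPolynomial.aeval (fun _ : Adm => (0 : ℚ))) f r
    have e1 : ∀ F : MvPolynomial Adm ℚ, MvPolynomial.aeval (fun _ : Adm => (0 : ℚ)) F = constantCoeff F := by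
      intro F
      rw [MvPolynomial.aeval_zero']
      simp
    rw [e1, e1, hf] at e
    rw [hG, map_sub, ← e, constantCoeff_C, Polynomial.coeff_zero_eq_aeval_zero, sub_self]
  obtain ⟨N1, hN1⟩ := bound hint G 1 (fun m hm => by
    by_contra hlt
    have hm0 : Finsupp.weight wt m = 0 := by omega
    have hm1 : m = 0 := by
      by_contra hne
      obtain ⟨s, hs⟩ := Finsupp.ne_iff.1 hne
      rw [Finsupp.coe_zero, Pi.zero_apply] at hs
      rw [Finsupp.weight_apply, Finsupp.sum, Finset.sum_eq_zero_iff] at hm0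
      have h3 := hm0 s (Finsupp.mem_support_iff.2 hs)
      rw [smul_eq_mul] at h3
      have h4 := wt_pos s
      rcases Nat.mul_eq_zero.1 h3 with h5 | h5
      · exact hs h5
      · omega
    subst hm1
    rw [mem_support_iff] at hm
    exact hm hG0)
  obtain ⟨N2, hN2⟩ := norm_ge _ hr0
  refine ⟨N1 + N2, fun p _ hp ht => ?_⟩
  have h3 := hN1 p (by omega)
  have h4 := hN2 p (by omega)
  have h5 := hq2 p (zp p) (h2 p) ht
  have hp1 : (1 : ℝ) < p := by exact_mod_cast (Fact.out : p.Prime).one_lt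
  have h6 : (p : ℝ)⁻¹ < 1 := inv_lt_one_of_one_lt₀ hp1
  rw [hr, map_mul, map_pow, Polynomial.aeval_X] at h5
  rcases mul_eq_zero.1 h5 with h7 | h7
  · exact eq_zero_of_pow_eq_zero h7
  · exfalso
    rw [pow_one, hG, map_sub, aeval_C, ← Polynomial.aeval_algHom_apply, h7, zero_sub, norm_neg] at h3
    have h8 : ‖algebraMap ℚ ℚ_[p] (r.coeff 0)‖ = ‖((r.coeff 0 : ℚ) : ℚ_[p])‖ := by simp
    rw [h8] at h3
    linarith

end

end Pool.Agent.TH120.PM
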