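import Mathlib
import Pool.Agent.TH133.MZ.Padic

/-!
# Lowest weight parts of relations between real and `p`-adic multiple zeta values
-/

set_option autoImplicit false

open MvPolynomial Pool.Agent.TH133.MZ

namespace Pool.Agent.TH120.PM

noncomputable section

/-- every polynomial relation over `ℚ` between the real multiple zeta values holds for the numbers `z s` -/
def Transfers {p : ℕ} [Fact p.Prime] (z : Adm → ℚ_[p]) : Prop :=
  ∀ f : MvPolynomial Adm ℚ, aeval zetaReal f = 0 → aeval z f = 0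

/-- for every index `s` and all large `p` the number `zp p s` is divisible by `p ^ (wt s)` -/
def Divisible (zp : ∀ (p : ℕ) [Fact p.Prime], Adm → ℚ_[p]) : Prop :=
  ∀ s : Adm, ∃ N : ℕ, ∀ (p : ℕ) [Fact p.Prime], N ≤ p → ‖zp p s‖ ≤ ((p : ℝ)⁻¹) ^ wt s

/-- the part of weight `w` of a polynomial in the indices -/
abbrev part (w : ℕ) (f : MvPolynomial Adm ℚ) : MvPolynomial Adm ℚ := weightedHomogeneousComponent wt w f

lemma coef (c : ℚ) : ∃ N : ℕ, ∀ (p : ℕ) [Fact p.Prime], N ≤ p → ‖((c : ℚ) : ℚ_[p])‖ ≤ 1 :=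
  ⟨c.den + 1, fun p _ hp => Padic.norm_rat_le_one (fun h => by
    have := Nat.le_of_dvd c.pos h
    omega)⟩

/-- polynomials all of whose monomials have weight at least `w` -/
lemma bound {zp : ∀ (p : ℕ) [Fact p.Prime], Adm → ℚ_[p]} (hint : Divisible zp) (g : MvPolynomial Adm ℚ) (w : ℕ)
    (hg : ∀ m ∈ g.support, w ≤ Finsupp.weight wt m) :
    ∃ N : ℕ, ∀ (p : ℕ) [Fact p.Prime], N ≤ p → ‖aeval (zp p) g‖ ≤ ((p : ℝ)⁻¹) ^ w := by
  choose N hN using hint
  choose M hM using coef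
  refine ⟨g.support.sup (fun m => M (coeff m g) + m.support.sup N), fun p _ hp => ?_⟩
  have hp1 : (1 : ℝ) < p := by exact_mod_cast (Fact.out : p.Prime).one_lt
  have hp0 : (0 : ℝ) < p := by linarith
  have hx0 : (0 : ℝ) ≤ (p : ℝ)⁻¹ := by positivity
  have hx1 : (p : ℝ)⁻¹ ≤ 1 := inv_le_one_of_one_le₀ hp1.le
  rw [aeval_def, eval₂_eq]
  apply IsUltrametricDist.norm_sum_le_of_forall_le_of_nonneg (by positivity)
  intro m hm
  have h1 : M (coeff m g) + m.support.sup N ≤ p :=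
    (Finset.le_sup (f := fun m => M (coeff m g) + m.support.sup N) hm).trans hp
  rw [norm_mul, norm_prod]
  have h2 : ‖algebraMap ℚ ℚ_[p] (coeff m g)‖ ≤ 1 := by
    have := hM (coeff m g) p (by omega)
    simpa using this
  have h3 : ∏ i ∈ m.support, ‖zp p i ^ m i‖ ≤ ((p : ℝ)⁻¹) ^ (Finsupp.weight wt m) := by
    have h4 : ∏ i ∈ m.support, ‖zp p i ^ m i‖ ≤ ∏ i ∈ m.support, (((p : ℝ)⁻¹) ^ wt i) ^ m i := by
      apply Finset.prod_le_prod (fun i _ => norm_nonneg _)
      intro i hi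
      rw [norm_pow]
      apply pow_le_pow_left₀ (norm_nonneg _)
      apply hN i p
      have := Finset.le_sup (f := N) hi
      omega
    refine h4.trans (le_of_eq ?_)
    rw [Finsupp.weight_apply, Finsupp.sum, ← Finset.prod_pow_eq_pow_sum]
    apply Finset.prod_congr rfl
    intro i _
    rw [← pow_mul, smul_eq_mul, mul_comm]
  calc ‖algebraMap ℚ ℚ_[p] (coeff m g)‖ * ∏ i ∈ m.support, ‖zp p i ^ m i‖
      ≤ 1 * ((p : ℝ)⁻¹) ^ (Finsupp.weight wt m) :=
        mul_le_mul h2 h3 (Finset.prod_nonneg fun i _ => norm_nonneg _) zero_le_one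
    _ ≤ ((p : ℝ)⁻¹) ^ w := by
        rw [one_mul]
        exact pow_le_pow_of_le_one hx0 hx1 (hg m hm)

/-- **the lowest weight part of a relation** -/
theorem lowest {zp : ∀ (p : ℕ) [Fact p.Prime], Adm → ℚ_[p]} (hint : Divisible zp) (f : MvPolynomial Adm ℚ)
    (hf : aeval zetaReal f = 0) (w : ℕ) (hw : ∀ v < w, part v f = 0) :
    ∃ N : ℕ, ∀ (p : ℕ) [Fact p.Prime], N ≤ p → Transfers (zp p) →
      ‖aeval (zp p) (part w f)‖ ≤ ((p : ℝ)⁻¹) ^ (w + 1) := by
  classical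
  obtain ⟨N, hN⟩ := bound hint (f - part w f) (w + 1) (fun m hm => by
    rw [mem_support_iff, coeff_sub, coeff_weightedHomogeneousComponent] at hm
    by_contra hlt
    push Not at hlt
    rcases Nat.lt_succ_iff_lt_or_eq.1 hlt with h | h
    · rw [if_neg (by omega), sub_zero] at hm
      have h2 := congrArg (coeff m) (hw _ h)
      rw [coeff_weightedHomogeneousComponent, if_pos rfl, coeff_zero] at h2
      exact hm h2
    · rw [if_pos h, sub_self] at hm
      exact hm rfl)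
  refine ⟨N, fun p _ hp ht => ?_⟩
  have h1 := hN p hp
  have h2 := ht f hf
  rw [map_sub, h2, zero_sub, norm_neg] at h1
  exact h1

lemma norm_ge (c : ℚ) (hc : c ≠ 0) : ∃ N : ℕ, ∀ (p : ℕ) [Fact p.Prime], N ≤ p → 1 ≤ ‖((c : ℚ) : ℚ_[p])‖ := by
  obtain ⟨N, hN⟩ := coef c⁻¹
  refine ⟨N, fun p _ hp => ?_⟩
  have h := hN p hp
  have hc' : ((c : ℚ) : ℚ_[p]) ≠ 0 := by exact_mod_cast hc
  push_cast at h
  rw [norm_inv] at h
  have h0 : 0 < ‖((c : ℚ) : ℚ_[p])‖ := norm_pos_iff.2 hc'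
  exact (inv_le_one₀ h0).1 h

/-- **algebraic values** -/
theorem algebraic {zp : ∀ (p : ℕ) [Fact p.Prime], Adm → ℚ_[p]} (hint : Divisible zp) (f : MvPolynomial Adm ℚ)
    (hf : constantCoeff f = 0) (hne : aeval zetaReal f ≠ 0) (halg : IsAlgebraic ℚ (aeval zetaReal f)) :
    ∃ N : ℕ, ∀ (p : ℕ) [Fact p.Prime], N ≤ p → ¬ Transfers (zp p) := by
  set z : ℝ := aeval zetaReal f with hz
  set g := minpoly ℚ z with hg
  have hg0 : g.coeff 0 ≠ 0 := minpoly.coeff_zero_ne_zero halg.isIntegral hne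
  set G : MvPolynomial Adm ℚ := Polynomial.aeval f g with hG
  have h1 : aeval zetaReal G = 0 := by
    rw [hG, ← Polynomial.aeval_algHom_apply, ← hz, hg, minpoly.aeval]
  have h2 : part 0 G = C (g.coeff 0) := by
    rw [part, weightedHomogeneousComponent_zero _ (fun i => by have := wt_pos i; omega)]
    congr 1
    have h3 : constantCoeff G = g.coeff 0 := by
      have e := Polynomial.aeval_algHom_apply (MvPolynomial.aeval (fun _ : Adm => (0 : ℚ))) f g
      have e1 : ∀ F : MvPolynomial Adm ℚ, MvPolynomial.aeval (fun _ : Adm => (0 : ℚ)) F = constantCoeff F := by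
        intro F
        rw [MvPolynomial.aeval_zero']
        simp
      rw [e1, e1, hf] at e
      rw [hG, ← e, Polynomial.coeff_zero_eq_aeval_zero]
    exact h3
  obtain ⟨N1, hN1⟩ := lowest hint G h1 0 (fun v hv => absurd hv (Nat.not_lt_zero _))
  obtain ⟨N2, hN2⟩ := norm_ge _ hg0
  refine ⟨N1 + N2, fun p _ hp ht => ?_⟩
  have h3 := hN1 p (by omega) ht
  have h4 := hN2 p (by omega)
  have hp1 : (1 : ℝ) < p := by exact_mod_cast (Fact.out : p.Prime).one_lt
  rw [h2, aeval_C, zero_add, pow_one] at h3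
  have h5 : (p : ℝ)⁻¹ < 1 := inv_lt_one_of_one_lt₀ hp1
  have h6 : ‖algebraMap ℚ ℚ_[p] (g.coeff 0)‖ = ‖((g.coeff 0 : ℚ) : ℚ_[p])‖ := by simp
  rw [h6] at h3
  linarith

end

end Pool.Agent.TH120.PM
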