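import Pool.Agent.TH120.PM.Low

/-!
# Depth one, and consequences
-/

set_option autoImplicit false

open MvPolynomial Pool.Agent.TH133.MZ

namespace Pool.Agent.TH120.PM

noncomputable section

/-- the index `(n)` -/
def single (n : ℕ) (h : 2 ≤ n) : Adm :=
  ⟨[n], by simp, by
    intro a ha
    rw [List.mem_singleton] at ha
    omega, by
    intro a ha
    rw [List.head?_cons, Option.mem_def, Option.some_inj] at ha
    omega⟩

/-- strictly decreasing tuples of length one -/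
def eqv : ℕ ≃ {n : Fin 1 → ℕ // StrictAnti n ∧ ∀ i, 1 ≤ n i} where
  toFun k := ⟨fun _ => k + 1, fun i j hij => absurd hij (by rw [Subsingleton.elim i j]; exact lt_irrefl _),
    fun _ => Nat.le_add_left _ _⟩
  invFun n := n.1 0 - 1
  left_inv k := by simp
  right_inv n := by
    apply Subtype.ext
    funext i
    have h := n.2.2 0
    have e : i = 0 := Subsingleton.elim _ _
    subst e
    simp only
    omega

theorem zetaReal_single (n : ℕ) (h : 2 ≤ n) : zetaReal (single n h) = ∑' k : ℕ, 1 / ((k : ℝ) + 1) ^ n := by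
  unfold zetaReal
  change (∑' m : {m : Fin 1 → ℕ // StrictAnti m ∧ ∀ i, 1 ≤ m i}, ∏ i : Fin 1, (((m.1 i : ℕ) : ℝ) ^ ([n].get i))⁻¹) = _
  rw [← eqv.tsum_eq]
  apply tsum_congr
  intro k
  rw [Fin.prod_univ_one]
  simp [eqv]

theorem zeta_pos (n : ℕ) (h : 2 ≤ n) : 0 < ∑' k : ℕ, 1 / ((k : ℝ) + 1) ^ n := by
  have hs : Summable fun k : ℕ => 1 / ((k : ℝ) + 1) ^ n := by
    have := (summable_nat_add_iff 1).2 (Real.summable_one_div_nat_pow.2 (by omega : 1 < n))
    simpa using this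
  exact hs.tsum_pos (fun k => by positivity) 0 (by positivity)

theorem zeta_two : (∑' k : ℕ, 1 / ((k : ℝ) + 1) ^ 2) = Real.pi ^ 2 / 6 := by
  have h := hasSum_zeta_two
  have h2 := h.summable.tsum_eq_zero_add
  rw [h.tsum_eq] at h2
  simp at h2
  rw [h2]
  apply tsum_congr
  intro k
  rw [one_div]

/-- transcendence of the zeta values -/
theorem transc {zp : ∀ (p : ℕ) [Fact p.Prime], Adm → ℚ_[p]} (hint : Divisible zp)
    (hinf : ∀ N : ℕ, ∃ (p : ℕ) (_ : Fact p.Prime), N ≤ p ∧ Transfers (zp p)) (f : MvPolynomial Adm ℚ)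
    (hf : constantCoeff f = 0) (hne : aeval zetaReal f ≠ 0) : Transcendental ℚ (aeval zetaReal f) := by
  intro halg
  obtain ⟨N, hN⟩ := algebraic hint f hf hne halg
  obtain ⟨p, hF, hp, ht⟩ := hinf N
  exact hN p hp ht

theorem transc_single {zp : ∀ (p : ℕ) [Fact p.Prime], Adm → ℚ_[p]} (hint : Divisible zp)
    (hinf : ∀ N : ℕ, ∃ (p : ℕ) (_ : Fact p.Prime), N ≤ p ∧ Transfers (zp p)) (n : ℕ) (h : 2 ≤ n) :
    Transcendental ℚ (∑' k : ℕ, 1 / ((k : ℝ) + 1) ^ n) := by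
  have h1 := transc hint hinf (X (single n h)) (constantCoeff_X _ _)
  rw [aeval_X, zetaReal_single] at h1
  exact h1 (zeta_pos n h).ne'

/-- powers of `1 / π ^ 2` -/
theorem pi_inv {p : ℕ} [Fact p.Prime] (z : Adm → ℚ_[p]) (h2 : z (single 2 le_rfl) = 0) (ht : Transfers z)
    (f : MvPolynomial Adm ℚ) (k : ℕ) (hk : 1 ≤ k) : aeval zetaReal f ≠ (Real.pi ^ (2 * k))⁻¹ := by
  intro h
  have hpi := Real.pi_pos
  have h1 : aeval zetaReal (f * X (single 2 le_rfl) ^ k - C ((1 / 6 : ℚ) ^ k)) = 0 := by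
    rw [map_sub, map_mul, map_pow, aeval_X, aeval_C, h, zetaReal_single, zeta_two, pow_mul]
    have e : (algebraMap ℚ ℝ) ((1 / 6 : ℚ) ^ k) = (1 / 6 : ℝ) ^ k := by simp
    rw [e, ← inv_pow, ← mul_pow, sub_eq_zero]
    congr 1
    field_simp
  have h3 := ht _ h1
  rw [map_sub, map_mul, map_pow, aeval_X, aeval_C, h2, zero_pow (by omega), mul_zero, zero_sub, neg_eq_zero] at h3
  have h4 : ((1 / 6 : ℚ) ^ k) = 0 := by
    rwa [map_eq_zero] at h3
  have : ((1 / 6 : ℚ) ^ k) ≠ 0 := by positivity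
  exact this h4

end

end Pool.Agent.TH120.PM
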